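import Pool.Agent.Helper72.WC.Defs

/-! # WC-I: isoperimetry on residues -/

set_option autoImplicit false

namespace Pool.Agent.Helper72.WC

open Finset

variable {n : ℕ}

theorem h69_cyc {L d : ℕ} [NeZero L] {x y : ZMod L → ℕ} (hxy : ∀ r, d ≤ x r + y r)
    (h : ∀ r, 4 * L * (x r * y (r + 1)) < d ^ 2) (h0 : d ≤ 2 * x 0) :
    2 * ∑ r, y r < d := by
  have hL : 0 < L := Nat.pos_of_ne_zero (NeZero.ne L)
  have hstep : ∀ r, d ≤ 2 * x r → 2 * L * y (r + 1) < d ∧ d ≤ 2 * x (r + 1) := by
    intro r hr
    have h1 := h r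
    have h2 : d * (2 * L * y (r + 1)) < d * d := by
      calc d * (2 * L * y (r + 1)) ≤ (2 * x r) * (2 * L * y (r + 1)) :=
            Nat.mul_le_mul_right _ hr
        _ = 4 * L * (x r * y (r + 1)) := by ring
        _ < d ^ 2 := h1
        _ = d * d := by ring
    have h3 : 2 * L * y (r + 1) < d := Nat.lt_of_mul_lt_mul_left h2
    refine ⟨h3, ?_⟩
    have h4 : 2 * y (r + 1) ≤ 2 * L * y (r + 1) := by
      calc 2 * y (r + 1) = 2 * 1 * y (r + 1) := by ring
        _ ≤ 2 * L * y (r + 1) := Nat.mul_le_mul_right _ (Nat.mul_le_mul_left _ hL)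
    have h5 := hxy (r + 1)
    omega
  have hall : ∀ m : ℕ, d ≤ 2 * x (m : ZMod L) := by
    intro m
    induction m with
    | zero => simpa using h0
    | succ m ih => simpa using (hstep _ ih).2
  have hall' : ∀ r, 2 * L * y r < d := by
    intro r
    have h1 := (hstep (((r - 1).val : ℕ) : ZMod L) (hall _)).1
    rw [ZMod.natCast_zmod_val, sub_add_cancel] at h1
    exact h1
  have h1 : ∑ r, 2 * L * y r < ∑ _r : ZMod L, d :=
    Finset.sum_lt_sum_of_nonempty ⟨0, Finset.mem_univ _⟩ fun r _ => hall' r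
  rw [Finset.sum_const, Finset.card_univ, ZMod.card, smul_eq_mul, ← Finset.mul_sum] at h1
  have h2 : L * (2 * ∑ r, y r) < L * d := by
    calc L * (2 * ∑ r, y r) = 2 * L * ∑ r, y r := by ring
      _ < L * d := h1
  exact Nat.lt_of_mul_lt_mul_left h2

theorem h69_sum_fib {L : ℕ} [NeZero L] (D : Finset (Fin n)) :
    ∑ r, (fib L D r).card = D.card :=
  (Finset.card_eq_sum_card_fiberwise (f := rs L) (t := Finset.univ)
    fun _ _ => Finset.mem_coe.2 (Finset.mem_univ _)).symm

/-- WC-I: isoperimetry on residues. -/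
theorem iso {L d : ℕ} [NeZero L] {D X : Finset (Fin n)} (hX : X ⊆ D)
    (hlo : ∀ r, d ≤ (fib L D r).card) (hup : ∀ r, (fib L D r).card ≤ 2 * d)
    (hsz : d ≤ 2 * (D \ X).card) :
    X.card * d ≤
      8 * L ^ 2 * ((X ×ˢ (D \ X)).filter fun p => relA L p.1 p.2).card := by
  have hL : 0 < L := Nat.pos_of_ne_zero (NeZero.ne L)
  set E := ((X ×ˢ (D \ X)).filter fun p => relA L p.1 p.2).card with hE
  have hsum : ∀ r, (fib L X r).card + (fib L (D \ X) r).card = (fib L D r).card := by
    intro r
    have h1 : fib L D r = fib L X r ∪ fib L (D \ X) r := by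
      unfold fib
      rw [← Finset.filter_union, Finset.union_sdiff_of_subset hX]
    rw [h1, Finset.card_union_of_disjoint]
    unfold fib
    exact Finset.disjoint_filter_filter Finset.disjoint_sdiff
  by_cases hc : 2 * X.card ≤ d
  · -- few vertices
    have h1 : ∑ x ∈ X, (fib L (D \ X) (rs L x + 1)).card ≤ E := by
      rw [hE, ← Finset.card_sigma]
      refine Finset.card_le_card_of_injOn (fun p => (p.1, p.2)) ?_ ?_
      · rintro ⟨x, y⟩ hp
        have hp' := Finset.mem_sigma.1 (Finset.mem_coe.1 hp)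
        have hy := Finset.mem_filter.1 hp'.2
        exact Finset.mem_coe.2 (Finset.mem_filter.2
          ⟨Finset.mem_product.2 ⟨hp'.1, hy.1⟩, Or.inl hy.2⟩)
      · rintro ⟨x, y⟩ _ ⟨x', y'⟩ _ h
        have h1 : x = x' := congrArg Prod.fst h
        have h2 : y = y' := congrArg Prod.snd h
        rw [h1, h2]
    have h2 : ∑ x ∈ X, d ≤ ∑ x ∈ X, 2 * (fib L (D \ X) (rs L x + 1)).card := by
      refine Finset.sum_le_sum fun x _ => ?_
      have e1 := hsum (rs L x + 1)
      have e2 := hlo (rs L x + 1)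
      have e3 : (fib L X (rs L x + 1)).card ≤ X.card := Finset.card_filter_le _ _
      omega
    rw [Finset.sum_const, smul_eq_mul, ← Finset.mul_sum] at h2
    calc X.card * d ≤ 2 * E := h2.trans (Nat.mul_le_mul_left _ h1)
      _ ≤ 8 * L ^ 2 * E := by
        refine Nat.mul_le_mul_right _ ?_
        have : 1 ≤ L ^ 2 := Nat.one_le_pow _ _ hL
        omega
  · have f1 : ∀ r, (fib L X r).card * (fib L (D \ X) (r + 1)).card ≤ E := by
      intro r
      rw [hE, ← Finset.card_product]
      refine Finset.card_le_card fun p hp => ?_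
      have hp' := Finset.mem_product.1 hp
      have a1 := Finset.mem_filter.1 hp'.1
      have a2 := Finset.mem_filter.1 hp'.2
      exact Finset.mem_filter.2 ⟨Finset.mem_product.2 ⟨a1.1, a2.1⟩, Or.inl (by rw [a1.2, a2.2])⟩
    have f2 : ∀ r, (fib L (D \ X) r).card * (fib L X (r + 1)).card ≤ E := by
      intro r
      rw [mul_comm, hE, ← Finset.card_product]
      refine Finset.card_le_card fun p hp => ?_
      have hp' := Finset.mem_product.1 hp
      have a1 := Finset.mem_filter.1 hp'.1
      have a2 := Finset.mem_filter.1 hp'.2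
      exact Finset.mem_filter.2 ⟨Finset.mem_product.2 ⟨a1.1, a2.1⟩, Or.inr (by rw [a1.2, a2.2])⟩
    have key : d ^ 2 ≤ 4 * L * E := by
      by_contra hcon
      push Not at hcon
      have s1 : d ≤ 2 * (fib L X 0).card ∨ d ≤ 2 * (fib L (D \ X) 0).card := by
        have e1 := hsum 0
        have e2 := hlo 0
        omega
      rcases s1 with s1 | s1
      · have h1 := h69_cyc (x := fun r => (fib L X r).card) (y := fun r => (fib L (D \ X) r).card)
          (fun r => by rw [hsum r]; exact hlo r)
          (fun r => (Nat.mul_le_mul_left _ (f1 r)).trans_lt hcon) s1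
        rw [h69_sum_fib] at h1
        omega
      · have h1 := h69_cyc (x := fun r => (fib L (D \ X) r).card) (y := fun r => (fib L X r).card)
          (fun r => by rw [add_comm, hsum r]; exact hlo r)
          (fun r => (Nat.mul_le_mul_left _ (f2 r)).trans_lt hcon) s1
        rw [h69_sum_fib] at h1
        omega
    have hXc : X.card ≤ 2 * d * L := by
      calc X.card ≤ D.card := Finset.card_le_card hX
        _ = ∑ r, (fib L D r).card := (h69_sum_fib D).symm
        _ ≤ ∑ _r : ZMod L, 2 * d := Finset.sum_le_sum fun r _ => hup r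
        _ = 2 * d * L := by
          rw [Finset.sum_const, Finset.card_univ, ZMod.card, smul_eq_mul, mul_comm]
    calc X.card * d ≤ 2 * d * L * d := Nat.mul_le_mul_right _ hXc
      _ = 2 * L * d ^ 2 := by ring
      _ ≤ 2 * L * (4 * L * E) := Nat.mul_le_mul_left _ key
      _ = 8 * L ^ 2 * E := by ring

end Pool.Agent.Helper72.WC
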